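import Pool.Agent.Q201.SY.Game

/-!
# The automata with cubic game length

The base set consists of two cycles, of lengths `m + 3` and `m + 4`.  Every base state has
`k + 2` copies, numbered by stages `0, …, k + 1`.
-/

namespace Pool.Q201.SY

open Finset

/-- Two cycles of coprime lengths. -/
abbrev Base (m : ℕ) : Type := ZMod (m + 3) ⊕ ZMod (m + 4)

/-- Simultaneous rotation of the two cycles. -/
def rotB (m : ℕ) : Base m → Base m
  | Sum.inl x => Sum.inl (x + 1)
  | Sum.inr y => Sum.inr (y + 1)

/-- The maps that Bob may use after the letter `att`: they glue the two base points `0`,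
send them to the first cycle, keep the rest of the second cycle in the second cycle and
glue the rest of the first cycle. -/
structure IsAns (m : ℕ) (β : Base m → Base m) : Prop where
  merge : β (Sum.inl 0) = β (Sum.inr 0)
  toX : ∃ x, β (Sum.inl 0) = Sum.inl x
  keepY : ∀ y : ZMod (m + 4), y ≠ 0 → ∃ y', β (Sum.inr y) = Sum.inr y'
  const : ∀ x x' : ZMod (m + 3), x ≠ 0 → x' ≠ 0 → β (Sum.inl x) = β (Sum.inl x')

/-- The letters. -/
inductive Letter (m : ℕ) : Type
  /-- rotation -/
  | rot
  /-- attack -/
  | att
  /-- return one stage towards stage `0` -/
  | ret
  /-- collapse everything outside of stage `0` -/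
  | kill
  /-- answer of Bob to the attack -/
  | ans (β : {β : Base m → Base m // IsAns m β})

/-- coding of the letters -/
def Letter.code {m : ℕ} : Letter m → Option (Option (Option (Option
    {β : Base m → Base m // IsAns m β})))
  | .rot => none
  | .att => some none
  | .ret => some (some none)
  | .kill => some (some (some none))
  | .ans β => some (some (some (some β)))

theorem Letter.code_injective {m : ℕ} : Function.Injective (Letter.code (m := m)) := by
  intro a b h
  cases a <;> cases b <;> simp_all [Letter.code]

instance (m : ℕ) : Finite (Letter m) := Finite.of_injective _ Letter.code_injective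

noncomputable instance (m : ℕ) : Fintype (Letter m) := Fintype.ofFinite _

instance (m : ℕ) : Nonempty (Letter m) := ⟨.rot⟩

/-- stage `j` -/
def stg (k j : ℕ) : Fin (k + 2) := ⟨min j (k + 1), by omega⟩

theorem stg_val {k j : ℕ} (h : j ≤ k + 1) : (stg k j).val = j := by
  simp [stg, h]

/-- The state to which everything collapses. -/
def sink (m k : ℕ) : Base m × Fin (k + 2) := (Sum.inl 0, stg k 0)

/-- The transition map. -/
def delta (m k : ℕ) (z : Base m × Fin (k + 2)) : Letter m → Base m × Fin (k + 2)
  | .rot => if z.2.val = 0 then (rotB m z.1, stg k k) else sink m k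
  | .att => if z.2.val = 0 then (z.1, stg k (k + 1)) else sink m k
  | .ret => if z.2.val = k + 1 then sink m k else (z.1, stg k (z.2.val - 1))
  | .kill => if z.2.val = 0 then z else sink m k
  | .ans β => if z.2.val = k + 1 then (β.1 z.1, stg k (k - 1))
      else if z.2.val = 0 then z else sink m k

variable {m k : ℕ}

/-- The copy of a set of base states at stage `j`. -/
def lift (k : ℕ) (P : Finset (Base m)) (j : ℕ) : Finset (Base m × Fin (k + 2)) :=
  P.image (fun q => (q, stg k j))

theorem lift_card (P : Finset (Base m)) (j : ℕ) : (lift k P j).card = P.card := by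
  apply Finset.card_image_of_injective
  intro a b h
  exact (Prod.mk.inj h).1

theorem lift_nonempty {P : Finset (Base m)} (h : P.Nonempty) (j : ℕ) :
    (lift k P j).Nonempty := h.image _

theorem lift_mono {P P' : Finset (Base m)} (h : P ⊆ P') (j : ℕ) :
    lift k P j ⊆ lift k P' j := Finset.image_subset_image h

theorem step_lift (P : Finset (Base m)) (j : ℕ) (a : Letter m) :
    step (delta m k) (lift k P j) a = P.image (fun q => delta m k (q, stg k j) a) := by
  unfold step lift
  rw [Finset.image_image]
  rfl

theorem step_sink {P : Finset (Base m)} (hP : P.Nonempty) (j : ℕ) (a : Letter m)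
    (h : ∀ q, delta m k (q, stg k j) a = sink m k) :
    (step (delta m k) (lift k P j) a).card = 1 := by
  rw [step_lift]
  have : P.image (fun q => delta m k (q, stg k j) a) = {sink m k} := by
    ext z
    simp only [mem_image, mem_singleton, h]
    constructor
    · rintro ⟨_, _, rfl⟩; rfl
    · rintro rfl
      obtain ⟨q, hq⟩ := hP
      exact ⟨q, hq, rfl⟩
  rw [this, card_singleton]

theorem step_lift_of {P : Finset (Base m)} {j j' : ℕ} {a : Letter m} {f : Base m → Base m}
    (h : ∀ q, delta m k (q, stg k j) a = (f q, stg k j')) :
    step (delta m k) (lift k P j) a = lift k (P.image f) j' := by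
  rw [step_lift]
  unfold lift
  rw [Finset.image_image]
  congr 1
  funext q
  exact h q

theorem step_lift_id {P : Finset (Base m)} {j j' : ℕ} {a : Letter m}
    (h : ∀ q, delta m k (q, stg k j) a = (q, stg k j')) :
    step (delta m k) (lift k P j) a = lift k P j' := by
  rw [step_lift_of (f := id) h]
  simp

/-! Transitions from stage `0`. -/

theorem step_rot0 (P : Finset (Base m)) :
    step (delta m k) (lift k P 0) .rot = lift k (P.image (rotB m)) k :=
  step_lift_of (fun q => by simp [delta, stg_val])

theorem step_att0 (P : Finset (Base m)) :
    step (delta m k) (lift k P 0) .att = lift k P (k + 1) :=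
  step_lift_id (fun q => by simp [delta, stg_val])

theorem step_ret0 (P : Finset (Base m)) :
    step (delta m k) (lift k P 0) .ret = lift k P 0 :=
  step_lift_id (fun q => by simp [delta, stg_val])

theorem step_kill0 (P : Finset (Base m)) :
    step (delta m k) (lift k P 0) .kill = lift k P 0 :=
  step_lift_id (fun q => by simp [delta, stg_val])

theorem step_ans0 (P : Finset (Base m)) (β : {β : Base m → Base m // IsAns m β}) :
    step (delta m k) (lift k P 0) (.ans β) = lift k P 0 :=
  step_lift_id (fun q => by simp [delta, stg_val])

/-! Transitions from the stages `1, …, k`. -/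

theorem step_ret_mid (P : Finset (Base m)) {j : ℕ} (h2 : j ≤ k) :
    step (delta m k) (lift k P j) .ret = lift k P (j - 1) :=
  step_lift_id (fun q => by
    have := stg_val (k := k) (j := j) (by omega)
    simp only [delta, this]
    rw [if_neg (by omega)])

theorem step_mid {P : Finset (Base m)} (hP : P.Nonempty) {j : ℕ} (h1 : 1 ≤ j) (h2 : j ≤ k)
    (a : Letter m) :
    (step (delta m k) (lift k P j) a).card = 1 ∨
      step (delta m k) (lift k P j) a = lift k P (j - 1) := by
  have hj := stg_val (k := k) (j := j) (by omega)
  cases a with
  | rot =>
    left; exact step_sink hP j _ (fun q => by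
      simp only [delta, hj]; rw [if_neg (by omega)])
  | att =>
    left; exact step_sink hP j _ (fun q => by
      simp only [delta, hj]; rw [if_neg (by omega)])
  | ret => right; exact step_ret_mid P h2
  | kill =>
    left; exact step_sink hP j _ (fun q => by
      simp only [delta, hj]; rw [if_neg (by omega)])
  | ans β =>
    left; exact step_sink hP j _ (fun q => by
      simp only [delta, hj]; rw [if_neg (by omega), if_neg (by omega)])

/-! Transitions from stage `k + 1`. -/

theorem step_ans_top (P : Finset (Base m)) (β : {β : Base m → Base m // IsAns m β}) :
    step (delta m k) (lift k P (k + 1)) (.ans β) = lift k (P.image β.1) (k - 1) :=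
  step_lift_of (fun q => by
    have hj := stg_val (k := k) (j := k + 1) le_rfl
    simp only [delta, hj]
    rw [if_pos trivial])

theorem step_top {P : Finset (Base m)} (hP : P.Nonempty) (a : Letter m) :
    (step (delta m k) (lift k P (k + 1)) a).card = 1 ∨
      ∃ β : {β : Base m → Base m // IsAns m β},
        step (delta m k) (lift k P (k + 1)) a = lift k (P.image β.1) (k - 1) := by
  have hj := stg_val (k := k) (j := k + 1) le_rfl
  cases a with
  | rot =>
    left; exact step_sink hP _ _ (fun q => by
      simp only [delta, hj]; rw [if_neg (by omega)])
  | att =>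
    left; exact step_sink hP _ _ (fun q => by
      simp only [delta, hj]; rw [if_neg (by omega)])
  | ret =>
    left; exact step_sink hP _ _ (fun q => by
      simp only [delta, hj]; rw [if_pos trivial])
  | kill =>
    left; exact step_sink hP _ _ (fun q => by
      simp only [delta, hj]; rw [if_neg (by omega)])
  | ans β => right; exact ⟨β, step_ans_top P β⟩

/-- The collapse at a nonzero stage. -/
theorem kill_card {P : Finset (Base m)} (hP : P.Nonempty) {j : ℕ} (h1 : 1 ≤ j)
    (h2 : j ≤ k + 1) : (step (delta m k) (lift k P j) .kill).card = 1 := by
  have hj := stg_val (k := k) (j := j) (by omega)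
  exact step_sink hP j _ (fun q => by simp only [delta, hj]; rw [if_neg (by omega)])

/-- What Bob can reach from stage `0`. -/
theorem reach0 {P : Finset (Base m)} (hP : P.Nonempty) (w : List (Letter m))
    (hw : w.length ≤ k) :
    run (delta m k) (lift k P 0) w = lift k P 0 ∨ (run (delta m k) (lift k P 0) w).card = 1 ∨
      ∃ P' : Finset (Base m), P'.Nonempty ∧ ∃ j, 1 ≤ j ∧ j ≤ k + 1 ∧
        (j ≤ k → k + 1 ≤ j + w.length) ∧ (j = k + 1 → 1 ≤ w.length) ∧
        run (delta m k) (lift k P 0) w = lift k P' j := by
  induction w using List.reverseRecOn with
  | nil => left; rfl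
  | append_singleton w a ih =>
    rw [List.length_append, List.length_singleton] at hw
    rw [run_snoc, List.length_append, List.length_singleton]
    rcases ih (by omega) with h | h | ⟨P', hP', j, hj1, hj2, hj3, hj4, h⟩
    · rw [h]
      cases a with
      | rot =>
        right; right
        exact ⟨P.image (rotB m), hP.image _, k, by omega, by omega, by omega, by omega,
          step_rot0 P⟩
      | att =>
        right; right
        exact ⟨P, hP, k + 1, by omega, by omega, by omega, by omega, step_att0 P⟩
      | ret => left; exact step_ret0 P
      | kill => left; exact step_kill0 P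
      | ans β => left; exact step_ans0 P β
    · right; left
      exact step_card_one _ h a
    · rw [h]
      rcases Nat.lt_or_ge k j with hjk | hjk
      · have hjk' : j = k + 1 := by omega
        subst hjk'
        rcases step_top hP' a with h' | ⟨β, h'⟩
        · right; left; exact h'
        · right; right
          have := hj4 rfl
          exact ⟨P'.image β.1, hP'.image _, k - 1, by omega, by omega, by omega, by omega, h'⟩
      · rcases step_mid hP' hj1 hjk a with h' | h'
        · right; left; exact h'
        · right; right
          have := hj3 hjk
          exact ⟨P', hP', j - 1, by omega, by omega, by omega, by omega, h'⟩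

/-- What Bob can reach from stage `k`. -/
theorem reachMid {P : Finset (Base m)} (hP : P.Nonempty) (w : List (Letter m))
    (hw : w.length ≤ k) :
    (run (delta m k) (lift k P k) w).card = 1 ∨
      run (delta m k) (lift k P k) w = lift k P (k - w.length) := by
  induction w using List.reverseRecOn with
  | nil => right; rfl
  | append_singleton w a ih =>
    rw [List.length_append, List.length_singleton] at hw
    rw [run_snoc, List.length_append, List.length_singleton]
    rcases ih (by omega) with h | h
    · left; exact step_card_one _ h a
    · rw [h]
      rcases step_mid (k := k) hP (j := k - w.length) (by omega) (by omega) a with h' | h'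
      · left; exact h'
      · right; rw [h', Nat.sub_sub]

/-- What Bob can reach from stage `k + 1`. -/
theorem reachTop {P : Finset (Base m)} (hP : P.Nonempty) (w : List (Letter m))
    (hw : w.length ≤ k) :
    (run (delta m k) (lift k P (k + 1)) w).card = 1 ∨
      run (delta m k) (lift k P (k + 1)) w = lift k P (k + 1) ∨
      ∃ β : {β : Base m → Base m // IsAns m β},
        run (delta m k) (lift k P (k + 1)) w = lift k (P.image β.1) (k - w.length) := by
  have key : (run (delta m k) (lift k P (k + 1)) w).card = 1 ∨
      (w.length = 0 ∧ run (delta m k) (lift k P (k + 1)) w = lift k P (k + 1)) ∨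
      ∃ β : {β : Base m → Base m // IsAns m β}, 1 ≤ w.length ∧
        run (delta m k) (lift k P (k + 1)) w = lift k (P.image β.1) (k - w.length) := by
    induction w using List.reverseRecOn with
    | nil => right; left; exact ⟨rfl, rfl⟩
    | append_singleton w a ih =>
      rw [List.length_append, List.length_singleton] at hw
      rw [run_snoc, List.length_append, List.length_singleton]
      rcases ih (by omega) with h | ⟨hl, h⟩ | ⟨β, hl, h⟩
      · left; exact step_card_one _ h a
      · rw [h]
        rcases step_top hP a with h' | ⟨β, h'⟩
        · left; exact h'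
        · right; right
          exact ⟨β, by omega, by rw [h', hl]⟩
      · rw [h]
        rcases step_mid (k := k) (hP.image β.1) (j := k - w.length) (by omega) (by omega) a with h' | h'
        · left; exact h'
        · right; right
          exact ⟨β, by omega, by rw [h', Nat.sub_sub]⟩
  rcases key with h | ⟨_, h⟩ | ⟨β, _, h⟩
  · exact Or.inl h
  · exact Or.inr (Or.inl h)
  · exact Or.inr (Or.inr ⟨β, h⟩)

/-- Bob returns to stage `0` by `k` letters `ret`. -/
theorem run_ret (P : Finset (Base m)) (j : ℕ) (hj : j ≤ k) :
    run (delta m k) (lift k P j) (List.replicate j Letter.ret) = lift k P 0 := by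
  induction j with
  | zero => rfl
  | succ j ih =>
    rw [List.replicate_succ]
    change run (delta m k) (step (delta m k) (lift k P (j + 1)) .ret) _ = _
    rw [step_ret_mid P hj]
    exact ih (by omega)

end Pool.Q201.SY
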