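import Mathlib

/-!
# The k-game on a DFA

Definitions of the synchronization game with bounded answers of Bob, and the
equivalence of the strategy form of `Alice wins within N moves` with the recursive one.
-/

namespace Pool.Q201.SY

/-- The set `P · a`. -/
def step {Q A : Type} [DecidableEq Q] (δ : Q → A → Q) (P : Finset Q) (a : A) : Finset Q :=
  P.image (fun q => δ q a)

/-- The set `P · w`. -/
def run {Q A : Type} [DecidableEq Q] (δ : Q → A → Q) (P : Finset Q) (w : List A) :
    Finset Q := w.foldl (step δ) P

/-- A strategy of Alice: her next letter as a function of the list of the answers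
of Bob in the previous rounds. -/
abbrev Strategy (A : Type) : Type := List (List A) → A

/-- The answers of Bob in the rounds before round `i` (rounds are numbered from `0`). -/
def hist {A : Type} (b : ℕ → List A) (i : ℕ) : List (List A) := (List.range i).map b

/-- The current set at the beginning of round `i`, when the game starts with the set `P`,
Alice plays the strategy `σ` and Bob answers `b 0, b 1, …`. -/
def pos {Q A : Type} [DecidableEq Q] (δ : Q → A → Q) (P : Finset Q) (σ : Strategy A)
    (b : ℕ → List A) : ℕ → Finset Q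
  | 0 => P
  | i + 1 => run δ (step δ (pos δ P σ b i) (σ (hist b i))) (b i)

/-- The letter of Alice in round `i` makes the current set a singleton
(the game starts with the set `P`). -/
def WinsAt {Q A : Type} [DecidableEq Q] (δ : Q → A → Q) (P : Finset Q) (σ : Strategy A)
    (b : ℕ → List A) (i : ℕ) : Prop :=
  (step δ (pos δ P σ b i) (σ (hist b i))).card = 1

/-- All the answers of Bob have length at most `k`. -/
def Legal {A : Type} (k : ℕ) (b : ℕ → List A) : Prop := ∀ i, (b i).length ≤ k

/-- `A_k`-automaton: Alice has a winning strategy in the `k`-game (which starts with the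
set of all states). -/
def IsA {Q A : Type} [Fintype Q] [DecidableEq Q] (δ : Q → A → Q) (k : ℕ) : Prop :=
  ∃ σ : Strategy A, ∀ b, Legal k b → ∃ i, WinsAt δ Finset.univ σ b i

/-- Alice has a strategy that wins within at most `N` of her moves against every play
of Bob. -/
def WinsWithin {Q A : Type} [Fintype Q] [DecidableEq Q] (δ : Q → A → Q) (k N : ℕ) : Prop :=
  ∃ σ : Strategy A, ∀ b, Legal k b → ∃ i < N, WinsAt δ Finset.univ σ b i

/-- The `k`-game length: the least `N` such that Alice has a strategy that wins within at
most `N` of her moves against every play of Bob. -/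
noncomputable def gameLength {Q A : Type} [Fintype Q] [DecidableEq Q] (δ : Q → A → Q)
    (k : ℕ) : ℕ := sInf {N | WinsWithin δ k N}

variable {Q A : Type} [DecidableEq Q] (δ : Q → A → Q)

/-- Recursive form of `Alice, to move at the current set P, wins within N moves`. -/
def Win (k : ℕ) : ℕ → Finset Q → Prop
  | 0, _ => False
  | N + 1, P => ∃ a, (step δ P a).card = 1 ∨
      ∀ w : List A, w.length ≤ k → Win k N (run δ (step δ P a) w)

/-- cons on sequences -/
def scons {α : Type} (w : α) (b : ℕ → α) : ℕ → α
  | 0 => w
  | i + 1 => b i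

theorem hist_scons (w : List A) (b : ℕ → List A) (i : ℕ) :
    hist (scons w b) (i + 1) = w :: hist b i := by
  unfold hist
  rw [List.range_succ_eq_map]
  simp [scons]

theorem pos_scons (P : Finset Q) (σ : Strategy A) (w : List A) (b : ℕ → List A)
    (i : ℕ) :
    pos δ P σ (scons w b) (i + 1) =
      pos δ (run δ (step δ P (σ [])) w) (fun h => σ (w :: h)) b i := by
  induction i with
  | zero => simp [pos, hist, scons]
  | succ i ih =>
    rw [pos, ih, hist_scons]
    rfl

theorem winsAt_scons (P : Finset Q) (σ : Strategy A) (w : List A) (b : ℕ → List A)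
    (i : ℕ) :
    WinsAt δ P σ (scons w b) (i + 1) ↔
      WinsAt δ (run δ (step δ P (σ [])) w) (fun h => σ (w :: h)) b i := by
  unfold WinsAt
  rw [pos_scons, hist_scons]

theorem scons_eta {α : Type} (b : ℕ → α) : scons (b 0) (fun i => b (i + 1)) = b := by
  funext i
  cases i <;> rfl

theorem win_of_strategy (k : ℕ) : ∀ (N : ℕ) (P : Finset Q) (σ : Strategy A),
    (∀ b, Legal k b → ∃ i < N, WinsAt δ P σ b i) → Win δ k N P := by
  intro N
  induction N with
  | zero =>
    intro P σ h
    obtain ⟨i, hi, _⟩ := h (fun _ => []) (fun _ => by simp)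
    omega
  | succ N ih =>
    intro P σ h
    refine ⟨σ [], ?_⟩
    by_cases hc : (step δ P (σ [])).card = 1
    · exact Or.inl hc
    · right
      intro w hw
      apply ih _ (fun h => σ (w :: h))
      intro b hb
      obtain ⟨i, hi, hwin⟩ := h (scons w b) (by
        intro i
        cases i with
        | zero => exact hw
        | succ i => exact hb i)
      cases i with
      | zero =>
        exfalso
        apply hc
        simpa [WinsAt, pos, hist] using hwin
      | succ i =>
        exact ⟨i, by omega, (winsAt_scons δ P σ w b i).1 hwin⟩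

theorem strategy_of_win (k : ℕ) : ∀ (N : ℕ) (P : Finset Q), Win δ k N P →
    ∃ σ : Strategy A, ∀ b, Legal k b → ∃ i < N, WinsAt δ P σ b i := by
  classical
  intro N
  induction N with
  | zero => intro P h; exact h.elim
  | succ N ih =>
    intro P h
    obtain ⟨a, h | h⟩ := h
    · refine ⟨fun _ => a, fun b _ => ⟨0, by omega, ?_⟩⟩
      simpa [WinsAt, pos] using h
    · have h2 : ∀ w : List A, ∃ σ : Strategy A, w.length ≤ k →
          ∀ b, Legal k b → ∃ i < N, WinsAt δ (run δ (step δ P a) w) σ b i := by
        intro w
        by_cases hw : w.length ≤ k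
        · obtain ⟨σ, hσ⟩ := ih _ (h w hw)
          exact ⟨σ, fun _ => hσ⟩
        · exact ⟨fun _ => a, fun hw' => absurd hw' hw⟩
      choose τ hτ using h2
      let σ : Strategy A := fun l => match l with
        | [] => a
        | w :: l => τ w l
      refine ⟨σ, fun b hb => ?_⟩
      obtain ⟨i, hi, hwin⟩ := hτ (b 0) (hb 0) (fun i => b (i + 1)) (fun i => hb (i + 1))
      refine ⟨i + 1, by omega, ?_⟩
      have := (winsAt_scons δ P σ (b 0) (fun i => b (i + 1)) i).2 hwin
      rwa [scons_eta] at this

theorem winsWithin_iff [Fintype Q] (k N : ℕ) :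
    WinsWithin δ k N ↔ Win δ k N Finset.univ :=
  ⟨fun ⟨σ, hσ⟩ => win_of_strategy δ k N _ σ hσ, strategy_of_win δ k N _⟩

theorem isA_of_winsWithin [Fintype Q] {k N : ℕ} (h : WinsWithin δ k N) : IsA δ k := by
  obtain ⟨σ, hσ⟩ := h
  refine ⟨σ, fun b hb => ?_⟩
  obtain ⟨i, _, hi⟩ := hσ b hb
  exact ⟨i, hi⟩

theorem winsWithin_gameLength [Fintype Q] {k N : ℕ} (h : WinsWithin δ k N) :
    WinsWithin δ k (gameLength δ k) := Nat.sInf_mem (s := {N | WinsWithin δ k N}) ⟨N, h⟩

theorem step_mono {P P' : Finset Q} (h : P ⊆ P') (a : A) : step δ P a ⊆ step δ P' a :=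
  Finset.image_subset_image h

theorem step_nonempty {P : Finset Q} (h : P.Nonempty) (a : A) : (step δ P a).Nonempty :=
  h.image _

theorem run_mono {P P' : Finset Q} (h : P ⊆ P') (w : List A) : run δ P w ⊆ run δ P' w := by
  induction w generalizing P P' with
  | nil => exact h
  | cons a w ih => exact ih (step_mono δ h a)

theorem run_nonempty {P : Finset Q} (h : P.Nonempty) (w : List A) :
    (run δ P w).Nonempty := by
  induction w generalizing P with
  | nil => exact h
  | cons a w ih => exact ih (step_nonempty δ h a)

theorem run_snoc (P : Finset Q) (w : List A) (a : A) :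
    run δ P (w ++ [a]) = step δ (run δ P w) a := by
  simp [run]

theorem card_one_of_subset {α : Type} {P P' : Finset α} (h : P ⊆ P') (hn : P.Nonempty)
    (hc : P'.card = 1) : P.card = 1 := by
  have h1 := Finset.card_le_card h
  have h2 := hn.card_pos
  omega

theorem win_subset (k : ℕ) : ∀ (N : ℕ) {P P' : Finset Q}, P ⊆ P' → P.Nonempty →
    Win δ k N P' → Win δ k N P := by
  intro N
  induction N with
  | zero => intro P P' _ _ h; exact h.elim
  | succ N ih =>
    intro P P' hs hn h
    obtain ⟨a, h | h⟩ := h
    · exact ⟨a, Or.inl (card_one_of_subset (step_mono δ hs a) (step_nonempty δ hn a) h)⟩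
    · exact ⟨a, Or.inr fun w hw => ih (run_mono δ (step_mono δ hs a) w)
        (run_nonempty δ (step_nonempty δ hn a) w) (h w hw)⟩

theorem win_succ (k : ℕ) : ∀ (N : ℕ) {P : Finset Q}, Win δ k N P → Win δ k (N + 1) P := by
  intro N
  induction N with
  | zero => intro P h; exact h.elim
  | succ N ih =>
    intro P h
    obtain ⟨a, h | h⟩ := h
    · exact ⟨a, Or.inl h⟩
    · exact ⟨a, Or.inr fun w hw => ih (h w hw)⟩

theorem win_mono (k : ℕ) {N N' : ℕ} (hN : N ≤ N') {P : Finset Q} (h : Win δ k N P) :
    Win δ k N' P := by
  induction N', hN using Nat.le_induction with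
  | base => exact h
  | succ n _ ih => exact win_succ δ k n ih

theorem step_card_one {R : Finset Q} (h : R.card = 1) (a : A) :
    (step δ R a).card = 1 := by
  obtain ⟨q, rfl⟩ := Finset.card_eq_one.1 h
  simp [step]

theorem win_one_of_card [Nonempty A] (k : ℕ) {P : Finset Q} (h : P.card = 1) :
    Win δ k 1 P :=
  ⟨Classical.arbitrary _, Or.inl (step_card_one δ h _)⟩

end Pool.Q201.SY
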