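import Pool.Agent.Q201.SY.Aut

/-!
# Bob survives for a cubic number of moves
-/

namespace Pool.Q201.SY

open Finset

variable {m k : ℕ}

/-- One token on the first cycle, the tokens of `S` on the second one. -/
def cfg (x : ZMod (m + 3)) (S : Finset (ZMod (m + 4))) : Finset (Base m) :=
  insert (Sum.inl x) (S.image Sum.inr)

theorem cfg_card (x : ZMod (m + 3)) (S : Finset (ZMod (m + 4))) :
    (cfg x S).card = S.card + 1 := by
  unfold cfg
  rw [card_insert_of_notMem (by simp), card_image_of_injective _ Sum.inr_injective]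

theorem cfg_nonempty (x : ZMod (m + 3)) (S : Finset (ZMod (m + 4))) :
    (cfg x S).Nonempty := ⟨_, mem_insert_self _ _⟩

theorem cfg_rot (x : ZMod (m + 3)) (S : Finset (ZMod (m + 4))) :
    (cfg x S).image (rotB m) = cfg (x + 1) (S.image (· + 1)) := by
  unfold cfg
  rw [image_insert, image_image, image_image]
  rfl

/-- No collision during the next `H` rotations (counting the present position). -/
def Late (x : ZMod (m + 3)) (S : Finset (ZMod (m + 4))) (H : ℕ) : Prop :=
  ∀ τ < H, ¬ (x + (τ : ZMod (m + 3)) = 0 ∧ -(τ : ZMod (m + 4)) ∈ S)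

theorem late_rot {x : ZMod (m + 3)} {S : Finset (ZMod (m + 4))} {H : ℕ} (h : Late x S H) :
    Late (x + 1) (S.image (· + 1)) (H - 1) := by
  rintro τ hτ ⟨h1, h2⟩
  obtain ⟨y, hy, hy2⟩ := mem_image.1 h2
  apply h (τ + 1) (by omega)
  refine ⟨?_, ?_⟩
  · rw [← h1]; push_cast; ring
  · have : -((τ + 1 : ℕ) : ZMod (m + 4)) = y := by
      push_cast
      rw [neg_add, ← hy2]; ring
    rw [this]; exact hy

/-- The block of the `t` last points of the second cycle. -/
def blk (m t : ℕ) : Finset (ZMod (m + 4)) :=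
  (Finset.Ico (m + 4 - t) (m + 4)).image (fun j : ℕ => (j : ZMod (m + 4)))

theorem cast_inj {a b : ℕ} (ha : a < m + 4) (hb : b < m + 4)
    (h : (a : ZMod (m + 4)) = (b : ZMod (m + 4))) : a = b := by
  have := (ZMod.natCast_eq_natCast_iff' _ _ _).1 h
  rwa [Nat.mod_eq_of_lt ha, Nat.mod_eq_of_lt hb] at this

theorem blk_card {t : ℕ} (ht : t ≤ m + 4) : (blk m t).card = t := by
  unfold blk
  rw [card_image_of_injOn, Nat.card_Ico]
  · omega
  · intro a ha b hb h
    simp only [coe_Ico, Set.mem_Ico] at ha hb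
    exact cast_inj ha.2 hb.2 h

theorem blk_succ {t : ℕ} (ht : t + 1 ≤ m + 4) :
    blk m (t + 1) ⊆ insert (((m + 4 - (t + 1) : ℕ)) : ZMod (m + 4)) (blk m t) := by
  intro y hy
  unfold blk at hy
  obtain ⟨j, hj, rfl⟩ := mem_image.1 hy
  rw [mem_Ico] at hj
  by_cases h : j = m + 4 - (t + 1)
  · rw [h]; exact mem_insert_self _ _
  · refine mem_insert_of_mem (mem_image.2 ⟨j, ?_, rfl⟩)
    rw [mem_Ico]; omega

theorem late_blk {t : ℕ} (_ht : t ≤ m + 3) :
    Late (m := m) 0 (blk m t) ((m + 3) * (m + 4 - t)) := by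
  rintro τ hτ ⟨h1, h2⟩
  rw [zero_add, ZMod.natCast_eq_zero_iff] at h1
  obtain ⟨j, rfl⟩ := h1
  have hj : j < m + 4 - t := Nat.lt_of_mul_lt_mul_left hτ
  unfold blk at h2
  obtain ⟨b, hb, hb2⟩ := mem_image.1 h2
  rw [mem_Ico] at hb
  have h3 : ((b + (m + 3) * j : ℕ) : ZMod (m + 4)) = 0 := by
    push_cast
    rw [hb2]; push_cast; ring
  rw [ZMod.natCast_eq_zero_iff] at h3
  have h4 : (m + 4) ∣ (b - j) := by
    have e : b + (m + 3) * j = (b - j) + (m + 4) * j := by
      have : b = (b - j) + j := by omega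
      calc b + (m + 3) * j = ((b - j) + j) + (m + 3) * j := by rw [← this]
        _ = (b - j) + (m + 4) * j := by ring
    rw [e] at h3
    exact (Nat.dvd_add_left (Dvd.intro _ rfl)).1 h3
  have := Nat.le_of_dvd (by omega) h4
  omega

theorem exists_onto {α β : Type} [DecidableEq α] [DecidableEq β] [Nonempty β]
    {S : Finset α} {T : Finset β} (h : T.card ≤ S.card) : ∃ g : α → β, T ⊆ S.image g := by
  classical
  obtain ⟨S', hS', hc⟩ := Finset.exists_subset_card_eq h
  let e := Finset.equivOfCardEq hc
  refine ⟨fun a => if ha : a ∈ S' then (e ⟨a, ha⟩).1 else Classical.arbitrary β, ?_⟩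
  intro b hb
  refine mem_image.2 ⟨(e.symm ⟨b, hb⟩).1, hS' (e.symm ⟨b, hb⟩).2, ?_⟩
  rw [dif_pos (e.symm ⟨b, hb⟩).2]
  simp

open Classical in
/-- The answers used by Bob. -/
noncomputable def mkAns (g : ZMod (m + 4) → ZMod (m + 4)) (u : Base m) : Base m → Base m
  | Sum.inl x => if x = 0 then Sum.inl 0 else u
  | Sum.inr y => if y = 0 then Sum.inl 0 else Sum.inr (g y)

theorem isAns_mkAns (g : ZMod (m + 4) → ZMod (m + 4)) (u : Base m) :
    IsAns m (mkAns g u) where
  merge := by simp [mkAns]
  toX := ⟨0, by simp [mkAns]⟩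
  keepY := fun y hy => ⟨g y, by simp [mkAns, hy]⟩
  const := fun x x' hx hx' => by simp [mkAns, hx, hx']

theorem exists_ans (x : ZMod (m + 3)) (S : Finset (ZMod (m + 4))) (t : ℕ)
    (ht : t ≤ m + 3)
    (h : (t < S.card) ∨ (t = S.card ∧ ¬ (x = 0 ∧ (0 : ZMod (m + 4)) ∈ S))) :
    ∃ β : {β : Base m → Base m // IsAns m β}, cfg 0 (blk m t) ⊆ (cfg x S).image β.1 := by
  classical
  by_cases hbad : t = S.card ∧ x ≠ 0 ∧ (0 : ZMod (m + 4)) ∈ S
  · -- the old slow token becomes an element of the block
    obtain ⟨h1, h2, h3⟩ := hbad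
    have hc : (S.erase 0).card = S.card - 1 := card_erase_of_mem h3
    have hpos : 0 < S.card := card_pos.2 ⟨0, h3⟩
    obtain ⟨s, hs⟩ : ∃ s, t = s + 1 := ⟨t - 1, by omega⟩
    have hb : (blk m s).card ≤ (S.erase 0).card := by
      rw [blk_card (by omega), hc]; omega
    obtain ⟨g, hg⟩ := exists_onto hb
    refine ⟨⟨mkAns g (Sum.inr ((m + 4 - (s + 1) : ℕ) : ZMod (m + 4))), isAns_mkAns _ _⟩, ?_⟩
    intro z hz
    unfold cfg at hz
    rw [mem_insert] at hz
    rcases hz with rfl | hz
    · refine mem_image.2 ⟨Sum.inr 0, ?_, by simp [mkAns]⟩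
      exact mem_insert_of_mem (mem_image_of_mem _ h3)
    · obtain ⟨y, hy, rfl⟩ := mem_image.1 hz
      rw [hs] at hy
      have hy2 := blk_succ (by omega) hy
      rw [mem_insert] at hy2
      rcases hy2 with rfl | hy2
      · refine mem_image.2 ⟨Sum.inl x, mem_insert_self _ _, by simp [mkAns, h2]⟩
      · obtain ⟨y', hy', rfl⟩ := mem_image.1 (hg hy2)
        rw [mem_erase] at hy'
        refine mem_image.2 ⟨Sum.inr y', mem_insert_of_mem (mem_image_of_mem _ hy'.2), ?_⟩
        simp [mkAns, hy'.1]
  · -- the number of tokens on the second cycle outside of `0` suffices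
    have hcard : t ≤ (S.erase 0).card ∧ (x = 0 ∨ (0 : ZMod (m + 4)) ∈ S ∨
        (0 : ZMod (m + 4)) ∉ S) := by
      refine ⟨?_, by tauto⟩
      by_cases h0 : (0 : ZMod (m + 4)) ∈ S
      · rw [card_erase_of_mem h0]
        rcases h with h | ⟨h1, h2⟩
        · omega
        · exfalso
          apply hbad
          refine ⟨h1, ?_, h0⟩
          intro hx
          exact h2 ⟨hx, h0⟩
      · rw [erase_eq_of_notMem h0]
        rcases h with h | ⟨h1, _⟩ <;> omega
    have hb : (blk m t).card ≤ (S.erase 0).card := by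
      rw [blk_card (by omega)]; exact hcard.1
    obtain ⟨g, hg⟩ := exists_onto hb
    refine ⟨⟨mkAns g (Sum.inl 0), isAns_mkAns _ _⟩, ?_⟩
    intro z hz
    unfold cfg at hz
    rw [mem_insert] at hz
    rcases hz with rfl | hz
    · refine mem_image.2 ⟨Sum.inl x, mem_insert_self _ _, ?_⟩
      simp [mkAns]
    · obtain ⟨y, hy, rfl⟩ := mem_image.1 hz
      obtain ⟨y', hy', rfl⟩ := mem_image.1 (hg hy)
      rw [mem_erase] at hy'
      refine mem_image.2 ⟨Sum.inr y', mem_insert_of_mem (mem_image_of_mem _ hy'.2), ?_⟩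
      simp [mkAns, hy'.1]

/-- The number of moves that Bob gains after the next collision, when there are `t` tokens
on the second cycle. -/
def E (m : ℕ) : ℕ → ℕ
  | 0 => 0
  | t + 1 => if t = 0 then 0 else E m t + ((m + 3) * (m + 4 - t) + 1)

theorem lower (hk : 1 ≤ k) (N : ℕ) : ∀ (H t : ℕ) (x : ZMod (m + 3))
    (S : Finset (ZMod (m + 4))), S.card = t → 1 ≤ t → t ≤ m + 3 → Late x S H →
    H ≤ (m + 3) * (m + 4 - t) → N ≤ H + E m t →
    ¬ Win (delta m k) k N (lift k (cfg x S) 0) := by
  induction N with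
  | zero => intro H t x S _ _ _ _ _ _ h; exact h
  | succ N ih =>
    intro H t x S hS ht1 ht hL hH hN hwin
    have hcard : ∀ j, (lift k (cfg x S) j).card ≠ 1 := by
      intro j
      rw [lift_card, cfg_card]; omega
    have hsame : ¬ Win (delta m k) k N (lift k (cfg x S) 0) := by
      rcases Nat.eq_zero_or_pos H with hH0 | hH0
      · exact ih H t x S hS ht1 ht hL hH (by omega)
      · exact ih H t x S hS ht1 ht hL hH (by omega)
    obtain ⟨a, h⟩ := hwin
    cases a with
    | rot =>
      rw [step_rot0, cfg_rot] at h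
      rcases h with h | h
      · rw [lift_card, cfg_card] at h
        have : (S.image (· + 1)).card = S.card :=
          card_image_of_injective _ (add_left_injective 1)
        omega
      · have h' := h (List.replicate k Letter.ret) (by simp)
        rw [run_ret _ k le_rfl] at h'
        refine ih (H - 1) t (x + 1) (S.image (· + 1)) ?_ ht1 ht (late_rot hL) (by omega)
          (by omega) h'
        rw [card_image_of_injective _ (add_left_injective 1), hS]
    | att =>
      rw [step_att0] at h
      rcases h with h | h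
      · exact hcard _ h
      · -- the general form of the answer
        have key : ∀ t', 1 ≤ t' → t' ≤ m + 3 → N ≤ (m + 3) * (m + 4 - t') + E m t' →
            (∃ β : {β : Base m → Base m // IsAns m β},
              cfg 0 (blk m t') ⊆ (cfg x S).image β.1) → False := by
          rintro t' h1 h2 h3 ⟨β, hβ⟩
          have h' := h (Letter.ans β :: List.replicate (k - 1) Letter.ret) (by
            simp; omega)
          have e : run (delta m k) (lift k (cfg x S) (k + 1))
              (Letter.ans β :: List.replicate (k - 1) Letter.ret) =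
              lift k ((cfg x S).image β.1) 0 := by
            change run (delta m k) (step (delta m k) (lift k (cfg x S) (k + 1)) (.ans β)) _ = _
            rw [step_ans_top]
            exact run_ret _ _ (by omega)
          rw [e] at h'
          have h'' := win_subset _ k N (lift_mono hβ 0)
            (lift_nonempty (cfg_nonempty _ _) 0) h'
          exact ih _ t' 0 (blk m t') (blk_card (by omega)) h1 h2 (late_blk h2) le_rfl h3 h''
        by_cases hcol : x = 0 ∧ (0 : ZMod (m + 4)) ∈ S
        · have hH0 : H = 0 := by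
            by_contra hne
            apply hL 0 (Nat.pos_of_ne_zero hne)
            simpa using hcol
          subst hH0
          obtain ⟨s, hs⟩ : ∃ s, t = s + 1 := ⟨t - 1, by omega⟩
          rw [hs] at hN
          by_cases hs0 : s = 0
          · rw [hs0] at hN
            simp [E] at hN
          · simp only [E, if_neg hs0] at hN
            exact key s (by omega) (by omega) (by omega)
              (exists_ans x S s (by omega) (Or.inl (by omega)))
        · exact key t ht1 ht (by omega) (exists_ans x S t ht (Or.inr ⟨hS.symm, hcol⟩))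
    | ret =>
      rw [step_ret0] at h
      rcases h with h | h
      · exact hcard _ h
      · exact hsame (h [] (by simp))
    | kill =>
      rw [step_kill0] at h
      rcases h with h | h
      · exact hcard _ h
      · exact hsame (h [] (by simp))
    | ans β =>
      rw [step_ans0] at h
      rcases h with h | h
      · exact hcard _ h
      · exact hsame (h [] (by simp))

theorem E_formula (m : ℕ) : ∀ t : ℕ, t + 1 ≤ m + 4 →
    2 * (E m (t + 1) : ℤ) =
      t * (2 * (m + 3) * (m + 4) + 2 - (m + 3) * (t + 1)) := by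
  intro t
  induction t with
  | zero => intro _; simp [E]
  | succ t ih =>
    intro ht
    have h1 := ih (by omega)
    have h2 : E m (t + 1 + 1) = E m (t + 1) + ((m + 3) * (m + 4 - (t + 1)) + 1) := by
      rw [E, if_neg (by omega)]
    obtain ⟨d, hd⟩ : ∃ d, m + 4 - (t + 1) = d := ⟨_, rfl⟩
    have h3 : (d : ℤ) = (m : ℤ) + 4 - (t + 1) := by omega
    rw [h2, hd]
    push_cast
    rw [h3]
    linear_combination h1

/-- Alice needs more than `(m+3)^3 / 2` moves. -/
theorem not_winsWithin (hk : 1 ≤ k) {N : ℕ} (hN : 2 * N ≤ (m + 3) ^ 3) :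
    ¬ WinsWithin (delta m k) k N := by
  rw [winsWithin_iff]
  intro h
  have h' := win_subset (delta m k) k N
    (Finset.subset_univ (lift k (cfg 0 (blk m (m + 3))) 0))
    (lift_nonempty (cfg_nonempty _ _) 0) h
  refine lower (m := m) hk N ((m + 3) * (m + 4 - (m + 3))) (m + 3) 0 (blk m (m + 3))
    (blk_card (by omega)) (by omega) le_rfl (late_blk le_rfl) le_rfl ?_ h'
  have e := E_formula m (m + 2) (by omega)
  have e2 : m + 4 - (m + 3) = 1 := by omega
  rw [e2, mul_one]
  have e3 : E m (m + 2 + 1) = E m (m + 3) := rfl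
  rw [e3] at e
  push_cast at e
  zify at hN ⊢
  nlinarith

end Pool.Q201.SY
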