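import Pool.Agent.Q201.SY.Aut

/-!
# Alice wins the k-game on the automata
-/

namespace Pool.Q201.SY

open Finset

variable {m k : ℕ}

theorem win_kill {P : Finset (Base m)} (hP : P.Nonempty) {j : ℕ} (h1 : 1 ≤ j)
    (h2 : j ≤ k + 1) (N : ℕ) : Win (delta m k) k (N + 1) (lift k P j) :=
  ⟨.kill, Or.inl (kill_card hP h1 h2)⟩

theorem win_rot {P : Finset (Base m)} (hP : P.Nonempty) {N : ℕ}
    (h : Win (delta m k) k (N + 1) (lift k (P.image (rotB m)) 0)) :
    Win (delta m k) k (N + 2) (lift k P 0) := by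
  refine ⟨.rot, Or.inr fun w hw => ?_⟩
  rw [step_rot0]
  rcases reachMid (k := k) (hP.image (rotB m)) w hw with h' | h'
  · exact win_mono _ k (by omega : 1 ≤ N + 1) (win_one_of_card _ k h')
  · rw [h']
    rcases Nat.eq_zero_or_pos (k - w.length) with h0 | h0
    · rw [h0]; exact h
    · exact win_kill (hP.image _) h0 (by omega) N

theorem win_att {P : Finset (Base m)} (hP : P.Nonempty) {N : ℕ}
    (h : ∀ β : {β : Base m → Base m // IsAns m β},
      Win (delta m k) k (N + 1) (lift k (P.image β.1) 0)) :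
    Win (delta m k) k (N + 2) (lift k P 0) := by
  refine ⟨.att, Or.inr fun w hw => ?_⟩
  rw [step_att0]
  rcases reachTop (k := k) hP w hw with h' | h' | ⟨β, h'⟩
  · exact win_mono _ k (by omega : 1 ≤ N + 1) (win_one_of_card _ k h')
  · rw [h']
    exact win_kill hP (by omega) le_rfl N
  · rw [h']
    rcases Nat.eq_zero_or_pos (k - w.length) with h0 | h0
    · rw [h0]; exact h β
    · exact win_kill (hP.image _) h0 (by omega) N

theorem win_univ {N : ℕ}
    (h : ∀ P : Finset (Base m), P.Nonempty → Win (delta m k) k (N + 1) (lift k P 0)) :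
    Win (delta m k) k (N + 2) Finset.univ := by
  refine ⟨.kill, Or.inr fun w hw => ?_⟩
  have hs : step (delta m k) (Finset.univ : Finset (Base m × Fin (k + 2))) .kill =
      lift k (Finset.univ : Finset (Base m)) 0 := by
    ext z
    simp only [step, lift, mem_image, mem_univ, true_and]
    constructor
    · rintro ⟨y, rfl⟩
      by_cases hy : y.2.val = 0
      · refine ⟨y.1, ?_⟩
        simp only [delta, if_pos hy]
        refine Prod.ext rfl ?_
        apply Fin.ext
        rw [stg_val (by omega), hy]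
      · refine ⟨Sum.inl 0, ?_⟩
        simp only [delta, if_neg hy, sink]
    · rintro ⟨q, rfl⟩
      refine ⟨(q, stg k 0), ?_⟩
      simp [delta, stg_val]
  rw [hs]
  have hn : (Finset.univ : Finset (Base m)).Nonempty := ⟨Sum.inl 0, mem_univ _⟩
  rcases reach0 (k := k) hn w hw with h' | h' | ⟨P', hP', j, hj1, hj2, _, _, h'⟩
  · rw [h']; exact h _ hn
  · exact win_mono _ k (by omega : 1 ≤ N + 1) (win_one_of_card _ k h')
  · rw [h']
    exact win_kill hP' hj1 hj2 N

theorem card_image_lt_of_eq {P : Finset (Base m)} {β : Base m → Base m} {u v : Base m}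
    (hu : u ∈ P) (hv : v ∈ P) (hne : u ≠ v) (h : β u = β v) : (P.image β).card < P.card := by
  refine lt_of_le_of_ne Finset.card_image_le fun hc => hne ?_
  exact (Finset.card_image_iff.1 hc) hu hv h

section levels

variable {c N : ℕ}
  (hN : ∀ P : Finset (Base m), P.Nonempty → P.card ≤ c →
    Win (delta m k) k (N + 1) (lift k P 0))

include hN

theorem win_att_glue {P : Finset (Base m)} {u v : Base m} (hu : u ∈ P) (hv : v ∈ P)
    (hne : u ≠ v) (hc : P.card ≤ c + 1)
    (h : ∀ β : {β : Base m → Base m // IsAns m β}, β.1 u = β.1 v) :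
    Win (delta m k) k (N + 2) (lift k P 0) := by
  refine win_att ⟨u, hu⟩ fun β => hN _ (Finset.Nonempty.image ⟨u, hu⟩ _) ?_
  have := card_image_lt_of_eq hu hv hne (h β)
  omega

theorem win_xy (T : ℕ) : ∀ (P : Finset (Base m)) (x : ZMod (m + 3)) (y : ZMod (m + 4)),
    Sum.inl x ∈ P → Sum.inr y ∈ P → x + (T : ZMod (m + 3)) = 0 →
    y + (T : ZMod (m + 4)) = 0 → P.card ≤ c + 1 →
    Win (delta m k) k (N + T + 2) (lift k P 0) := by
  induction T with
  | zero =>
    intro P x y hx hy hx0 hy0 hc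
    have hx' : x = 0 := by simpa using hx0
    have hy' : y = 0 := by simpa using hy0
    subst hx' hy'
    exact win_att_glue hN hx hy (by simp) hc (fun β => β.2.merge)
  | succ T ih =>
    intro P x y hx hy hx0 hy0 hc
    refine win_rot ⟨_, hx⟩ (ih (P.image (rotB m)) (x + 1) (y + 1)
      (mem_image.2 ⟨_, hx, rfl⟩) (mem_image.2 ⟨_, hy, rfl⟩) ?_ ?_
      (le_trans Finset.card_image_le hc))
    · rw [← hx0]; push_cast; ring
    · rw [← hy0]; push_cast; ring

omit hN in
theorem exists_time (x : ZMod (m + 3)) (y : ZMod (m + 4)) :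
    ∃ T : ℕ, T ≤ (m + 3) * (m + 4) ∧ x + (T : ZMod (m + 3)) = 0 ∧
      y + (T : ZMod (m + 4)) = 0 := by
  have co : Nat.Coprime (m + 3) (m + 4) := by
    change Nat.Coprime (m + 3) ((m + 3) + 1)
    simp
  let T := Nat.chineseRemainder co ((-x).val) ((-y).val)
  refine ⟨T.1, (Nat.chineseRemainder_lt_mul co _ _ (by omega) (by omega)).le, ?_, ?_⟩
  · have h := T.2.1
    have h2 := (ZMod.natCast_eq_natCast_iff _ _ _).2 h
    rw [h2, ZMod.natCast_zmod_val]
    ring
  · have h := T.2.2
    have h2 := (ZMod.natCast_eq_natCast_iff _ _ _).2 h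
    rw [h2, ZMod.natCast_zmod_val]
    ring

theorem win_xy' (P : Finset (Base m)) (x : ZMod (m + 3)) (y : ZMod (m + 4))
    (hx : Sum.inl x ∈ P) (hy : Sum.inr y ∈ P) (hc : P.card ≤ c + 1) :
    Win (delta m k) k (N + (m + 3) * (m + 4) + 2) (lift k P 0) := by
  obtain ⟨T, hT, h1, h2⟩ := exists_time x y
  exact win_mono _ k (by omega) (win_xy hN T P x y hx hy h1 h2 hc)

theorem win_yy (T : ℕ) : ∀ (P : Finset (Base m)) (y y' : ZMod (m + 4)),
    Sum.inr y ∈ P → Sum.inr y' ∈ P → y ≠ y' →
    y + (T : ZMod (m + 4)) = 0 → P.card ≤ c + 1 →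
    Win (delta m k) k (N + (m + 3) * (m + 4) + T + 3) (lift k P 0) := by
  induction T with
  | zero =>
    intro P y y' hy hy' hne hy0 hc
    have hy2 : y = 0 := by simpa using hy0
    subst hy2
    refine win_att ⟨_, hy⟩ fun β => ?_
    obtain ⟨x, hx⟩ := β.2.toX
    obtain ⟨z, hz⟩ := β.2.keepY y' (Ne.symm hne)
    refine win_xy' hN (P.image β.1) x z ?_ ?_ (le_trans Finset.card_image_le hc)
    · rw [← hx, β.2.merge]; exact mem_image_of_mem _ hy
    · rw [← hz]; exact mem_image_of_mem _ hy'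
  | succ T ih =>
    intro P y y' hy hy' hne hy0 hc
    refine win_rot ⟨_, hy⟩ (ih (P.image (rotB m)) (y + 1) (y' + 1)
      (mem_image.2 ⟨_, hy, rfl⟩) (mem_image.2 ⟨_, hy', rfl⟩) ?_ ?_
      (le_trans Finset.card_image_le hc))
    · intro h; exact hne (add_right_cancel h)
    · rw [← hy0]; push_cast; ring

theorem win_xx (T : ℕ) : ∀ (P : Finset (Base m)) (x x' : ZMod (m + 3)),
    Sum.inl x ∈ P → Sum.inl x' ∈ P → x ≠ x' →
    x + (T : ZMod (m + 3)) ≠ 0 → x' + (T : ZMod (m + 3)) ≠ 0 → P.card ≤ c + 1 →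
    Win (delta m k) k (N + T + 2) (lift k P 0) := by
  induction T with
  | zero =>
    intro P x x' hx hx' hne h1 h2 hc
    refine win_att_glue hN hx hx' (by simpa using hne) hc (fun β => β.2.const x x' ?_ ?_)
    · simpa using h1
    · simpa using h2
  | succ T ih =>
    intro P x x' hx hx' hne h1 h2 hc
    refine win_rot ⟨_, hx⟩ (ih (P.image (rotB m)) (x + 1) (x' + 1)
      (mem_image.2 ⟨_, hx, rfl⟩) (mem_image.2 ⟨_, hx', rfl⟩) ?_ ?_ ?_
      (le_trans Finset.card_image_le hc))
    · intro h; exact hne (add_right_cancel h)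
    · intro h; apply h1; rw [← h]; push_cast; ring
    · intro h; apply h2; rw [← h]; push_cast; ring

omit hN in
theorem exists_two (x x' : ZMod (m + 3)) (hne : x ≠ x') :
    ∃ T : ℕ, T ≤ 2 ∧ x + (T : ZMod (m + 3)) ≠ 0 ∧ x' + (T : ZMod (m + 3)) ≠ 0 := by
  have h1 : (1 : ZMod (m + 3)) ≠ 0 := by
    have : Fact (1 < m + 3) := ⟨by omega⟩
    exact one_ne_zero
  have h2 : (2 : ZMod (m + 3)) ≠ 0 := by
    have : ((2 : ℕ) : ZMod (m + 3)) ≠ 0 := by
      rw [Ne, ZMod.natCast_eq_zero_iff]
      intro h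
      have := Nat.le_of_dvd (by omega) h
      omega
    simpa using this
  by_cases a0 : x + ((0 : ℕ) : ZMod (m + 3)) ≠ 0 ∧ x' + ((0 : ℕ) : ZMod (m + 3)) ≠ 0
  · exact ⟨0, by omega, a0⟩
  by_cases a1 : x + ((1 : ℕ) : ZMod (m + 3)) ≠ 0 ∧ x' + ((1 : ℕ) : ZMod (m + 3)) ≠ 0
  · exact ⟨1, by omega, a1⟩
  refine ⟨2, le_rfl, ?_⟩
  simp only [Nat.cast_zero, add_zero, not_and_or, not_not] at a0
  simp only [Nat.cast_one, not_and_or, not_not] at a1
  push_cast
  rcases a0 with rfl | rfl
  · rcases a1 with a1 | a1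
    · exact absurd (by simpa using a1) h1
    · refine ⟨by simpa using h2, ?_⟩
      have : x' + 2 = (x' + 1) + 1 := by ring
      rw [this, a1]; simpa using h1
  · rcases a1 with a1 | a1
    · refine ⟨?_, by simpa using h2⟩
      have : x + 2 = (x + 1) + 1 := by ring
      rw [this, a1]; simpa using h1
    · exact absurd (by simpa using a1) h1

theorem win_level (P : Finset (Base m)) (hP : P.Nonempty) (hc : P.card ≤ c + 1) :
    Win (delta m k) k (N + (m + 3) * (m + 4) + (m + 4) + 3) (lift k P 0) := by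
  by_cases h1 : P.card ≤ 1
  · have : P.card = 1 := le_antisymm h1 hP.card_pos
    refine win_mono _ k (by omega : 1 ≤ _) (win_one_of_card _ k ?_)
    rw [lift_card, this]
  obtain ⟨u, hu, v, hv, hne⟩ := Finset.one_lt_card.1 (not_le.1 h1)
  rcases u with x | y <;> rcases v with x' | y'
  · obtain ⟨T, hT, h2, h3⟩ := exists_two x x' (by simpa using hne)
    exact win_mono _ k (by nlinarith) (win_xx hN T P x x' hu hv (by simpa using hne) h2 h3 hc)
  · exact win_mono _ k (by omega) (win_xy' hN P x y' hu hv hc)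
  · exact win_mono _ k (by omega) (win_xy' hN P x' y hv hu hc)
  · have ht : y + (((-y).val : ℕ) : ZMod (m + 4)) = 0 := by
      rw [ZMod.natCast_zmod_val]; ring
    have hl := ZMod.val_lt (-y)
    exact win_mono _ k (by omega)
      (win_yy hN ((-y).val) P y y' hu hv (by simpa using hne) ht hc)

end levels

theorem win_all (c : ℕ) : ∃ N, ∀ P : Finset (Base m), P.Nonempty → P.card ≤ c →
    Win (delta m k) k (N + 1) (lift k P 0) := by
  induction c with
  | zero =>
    refine ⟨0, fun P hP hc => ?_⟩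
    have := hP.card_pos
    omega
  | succ c ih =>
    obtain ⟨N, hN⟩ := ih
    exact ⟨_, fun P hP hc => win_level hN P hP hc⟩

/-- Alice wins the k-game. -/
theorem exists_winsWithin (m k : ℕ) : ∃ N, WinsWithin (delta m k) k N := by
  obtain ⟨N, hN⟩ := win_all (m := m) (k := k) (Fintype.card (Base m))
  refine ⟨N + 2, (winsWithin_iff _ k _).2 (win_univ fun P hP => hN P hP ?_)⟩
  exact Finset.card_le_univ P

end Pool.Q201.SY
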